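/-! Long numbers written in pieces of 1024 bits, the highest piece first; a: pieces, b: groups of 8 pieces, c: groups of 64 pieces. -/

namespace Pool.Agent.MP_f14165_co.Jn

noncomputable def a2 (x0 x1 : Nat) : Nat :=
  Nat.add (Nat.shiftLeft x0 (nat_lit 1024)) x1
noncomputable def a3 (x0 x1 x2 : Nat) : Nat :=
  Nat.add (Nat.shiftLeft (Nat.add (Nat.shiftLeft x0 (nat_lit 1024)) x1) (nat_lit 1024)) x2
noncomputable def a4 (x0 x1 x2 x3 : Nat) : Nat :=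
  Nat.add (Nat.shiftLeft (Nat.add (Nat.shiftLeft (Nat.add (Nat.shiftLeft x0 (nat_lit 1024)) x1) (nat_lit 1024)) x2) (nat_lit 1024)) x3
noncomputable def a5 (x0 x1 x2 x3 x4 : Nat) : Nat :=
  Nat.add (Nat.shiftLeft (Nat.add (Nat.shiftLeft (Nat.add (Nat.shiftLeft (Nat.add (Nat.shiftLeft x0 (nat_lit 1024)) x1) (nat_lit 1024)) x2) (nat_lit 1024)) x3) (nat_lit 1024)) x4
noncomputable def a6 (x0 x1 x2 x3 x4 x5 : Nat) : Nat :=
  Nat.add (Nat.shiftLeft (Nat.add (Nat.shiftLeft (Nat.add (Nat.shiftLeft (Nat.add (Nat.shiftLeft (Nat.add (Nat.shiftLeft x0 (nat_lit 1024)) x1) (nat_lit 1024)) x2) (nat_lit 1024)) x3) (nat_lit 1024)) x4) (nat_lit 1024)) x5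
noncomputable def a7 (x0 x1 x2 x3 x4 x5 x6 : Nat) : Nat :=
  Nat.add (Nat.shiftLeft (Nat.add (Nat.shiftLeft (Nat.add (Nat.shiftLeft (Nat.add (Nat.shiftLeft (Nat.add (Nat.shiftLeft (Nat.add (Nat.shiftLeft x0 (nat_lit 1024)) x1) (nat_lit 1024)) x2) (nat_lit 1024)) x3) (nat_lit 1024)) x4) (nat_lit 1024)) x5) (nat_lit 1024)) x6
noncomputable def a8 (x0 x1 x2 x3 x4 x5 x6 x7 : Nat) : Nat :=
  Nat.add (Nat.shiftLeft (Nat.add (Nat.shiftLeft (Nat.add (Nat.shiftLeft (Nat.add (Nat.shiftLeft (Nat.add (Nat.shiftLeft (Nat.add (Nat.shiftLeft (Nat.add (Nat.shiftLeft x0 (nat_lit 1024)) x1) (nat_lit 1024)) x2) (nat_lit 1024)) x3) (nat_lit 1024)) x4) (nat_lit 1024)) x5) (nat_lit 1024)) x6) (nat_lit 1024)) x7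
noncomputable def b2 (x0 x1 : Nat) : Nat :=
  Nat.add (Nat.shiftLeft x0 (nat_lit 8192)) x1
noncomputable def b3 (x0 x1 x2 : Nat) : Nat :=
  Nat.add (Nat.shiftLeft (Nat.add (Nat.shiftLeft x0 (nat_lit 8192)) x1) (nat_lit 8192)) x2
noncomputable def b4 (x0 x1 x2 x3 : Nat) : Nat :=
  Nat.add (Nat.shiftLeft (Nat.add (Nat.shiftLeft (Nat.add (Nat.shiftLeft x0 (nat_lit 8192)) x1) (nat_lit 8192)) x2) (nat_lit 8192)) x3
noncomputable def b5 (x0 x1 x2 x3 x4 : Nat) : Nat :=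
  Nat.add (Nat.shiftLeft (Nat.add (Nat.shiftLeft (Nat.add (Nat.shiftLeft (Nat.add (Nat.shiftLeft x0 (nat_lit 8192)) x1) (nat_lit 8192)) x2) (nat_lit 8192)) x3) (nat_lit 8192)) x4
noncomputable def b6 (x0 x1 x2 x3 x4 x5 : Nat) : Nat :=
  Nat.add (Nat.shiftLeft (Nat.add (Nat.shiftLeft (Nat.add (Nat.shiftLeft (Nat.add (Nat.shiftLeft (Nat.add (Nat.shiftLeft x0 (nat_lit 8192)) x1) (nat_lit 8192)) x2) (nat_lit 8192)) x3) (nat_lit 8192)) x4) (nat_lit 8192)) x5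
noncomputable def b7 (x0 x1 x2 x3 x4 x5 x6 : Nat) : Nat :=
  Nat.add (Nat.shiftLeft (Nat.add (Nat.shiftLeft (Nat.add (Nat.shiftLeft (Nat.add (Nat.shiftLeft (Nat.add (Nat.shiftLeft (Nat.add (Nat.shiftLeft x0 (nat_lit 8192)) x1) (nat_lit 8192)) x2) (nat_lit 8192)) x3) (nat_lit 8192)) x4) (nat_lit 8192)) x5) (nat_lit 8192)) x6
noncomputable def b8 (x0 x1 x2 x3 x4 x5 x6 x7 : Nat) : Nat :=
  Nat.add (Nat.shiftLeft (Nat.add (Nat.shiftLeft (Nat.add (Nat.shiftLeft (Nat.add (Nat.shiftLeft (Nat.add (Nat.shiftLeft (Nat.add (Nat.shiftLeft (Nat.add (Nat.shiftLeft x0 (nat_lit 8192)) x1) (nat_lit 8192)) x2) (nat_lit 8192)) x3) (nat_lit 8192)) x4) (nat_lit 8192)) x5) (nat_lit 8192)) x6) (nat_lit 8192)) x7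
noncomputable def c2 (x0 x1 : Nat) : Nat :=
  Nat.add (Nat.shiftLeft x0 (nat_lit 65536)) x1
noncomputable def c3 (x0 x1 x2 : Nat) : Nat :=
  Nat.add (Nat.shiftLeft (Nat.add (Nat.shiftLeft x0 (nat_lit 65536)) x1) (nat_lit 65536)) x2
noncomputable def c4 (x0 x1 x2 x3 : Nat) : Nat :=
  Nat.add (Nat.shiftLeft (Nat.add (Nat.shiftLeft (Nat.add (Nat.shiftLeft x0 (nat_lit 65536)) x1) (nat_lit 65536)) x2) (nat_lit 65536)) x3
noncomputable def c5 (x0 x1 x2 x3 x4 : Nat) : Nat :=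
  Nat.add (Nat.shiftLeft (Nat.add (Nat.shiftLeft (Nat.add (Nat.shiftLeft (Nat.add (Nat.shiftLeft x0 (nat_lit 65536)) x1) (nat_lit 65536)) x2) (nat_lit 65536)) x3) (nat_lit 65536)) x4
noncomputable def c6 (x0 x1 x2 x3 x4 x5 : Nat) : Nat :=
  Nat.add (Nat.shiftLeft (Nat.add (Nat.shiftLeft (Nat.add (Nat.shiftLeft (Nat.add (Nat.shiftLeft (Nat.add (Nat.shiftLeft x0 (nat_lit 65536)) x1) (nat_lit 65536)) x2) (nat_lit 65536)) x3) (nat_lit 65536)) x4) (nat_lit 65536)) x5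
noncomputable def c7 (x0 x1 x2 x3 x4 x5 x6 : Nat) : Nat :=
  Nat.add (Nat.shiftLeft (Nat.add (Nat.shiftLeft (Nat.add (Nat.shiftLeft (Nat.add (Nat.shiftLeft (Nat.add (Nat.shiftLeft (Nat.add (Nat.shiftLeft x0 (nat_lit 65536)) x1) (nat_lit 65536)) x2) (nat_lit 65536)) x3) (nat_lit 65536)) x4) (nat_lit 65536)) x5) (nat_lit 65536)) x6
noncomputable def c8 (x0 x1 x2 x3 x4 x5 x6 x7 : Nat) : Nat :=
  Nat.add (Nat.shiftLeft (Nat.add (Nat.shiftLeft (Nat.add (Nat.shiftLeft (Nat.add (Nat.shiftLeft (Nat.add (Nat.shiftLeft (Nat.add (Nat.shiftLeft (Nat.add (Nat.shiftLeft x0 (nat_lit 65536)) x1) (nat_lit 65536)) x2) (nat_lit 65536)) x3) (nat_lit 65536)) x4) (nat_lit 65536)) x5) (nat_lit 65536)) x6) (nat_lit 65536)) x7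

end Pool.Agent.MP_f14165_co.Jn
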