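import Pool.Agent.MP_f14165_co.D.K0
import Pool.Agent.MP_f14165_co.D.K1
import Pool.Agent.MP_f14165_co.D.K2
import Pool.Agent.MP_f14165_co.D.K3
import Pool.Agent.MP_f14165_co.D.K4
import Pool.Agent.MP_f14165_co.D.K5
import Pool.Agent.MP_f14165_co.D.K6
import Pool.Agent.MP_f14165_co.D.K7
import Pool.Agent.MP_f14165_co.D.K8
import Pool.Agent.MP_f14165_co.D.K9
import Pool.Agent.MP_f14165_co.D.K10
import Pool.Agent.MP_f14165_co.D.K11
import Pool.Agent.MP_f14165_co.D.K12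
import Pool.Agent.MP_f14165_co.D.K13
import Pool.Agent.MP_f14165_co.D.K14
import Pool.Agent.MP_f14165_co.D.K15
import Pool.Agent.MP_f14165_co.D.K16
import Pool.Agent.MP_f14165_co.D.K17
import Pool.Agent.MP_f14165_co.D.K18
import Pool.Agent.MP_f14165_co.D.K19

set_option autoImplicit false
set_option maxRecDepth 100000

namespace Pool.Agent.MP_f14165_co

noncomputable def LI0 : List Nat := ki18 :: ki17 :: ki16 :: ki15 :: ki14 :: ki13 :: ki12 :: ki11 :: ki10 :: ki9 :: ki8 :: ki7 :: ki6 :: ki5 :: ki4 :: ki3 :: ki2 :: ki1 :: ki0 :: []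
noncomputable def LE0 : List Nat := ke18 :: ke17 :: ke16 :: ke15 :: ke14 :: ke13 :: ke12 :: ke11 :: ke10 :: ke9 :: ke8 :: ke7 :: ke6 :: ke5 :: ke4 :: ke3 :: ke2 :: ke1 :: ke0 :: []
noncomputable def LI1 : List Nat := ki37 :: ki36 :: ki35 :: ki34 :: ki33 :: ki32 :: ki31 :: ki30 :: ki29 :: ki28 :: ki27 :: ki26 :: ki25 :: ki24 :: ki23 :: ki22 :: ki21 :: ki20 :: ki19 :: LI0
noncomputable def LE1 : List Nat := ke37 :: ke36 :: ke35 :: ke34 :: ke33 :: ke32 :: ke31 :: ke30 :: ke29 :: ke28 :: ke27 :: ke26 :: ke25 :: ke24 :: ke23 :: ke22 :: ke21 :: ke20 :: ke19 :: LE0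
noncomputable def LI2 : List Nat := ki56 :: ki55 :: ki54 :: ki53 :: ki52 :: ki51 :: ki50 :: ki49 :: ki48 :: ki47 :: ki46 :: ki45 :: ki44 :: ki43 :: ki42 :: ki41 :: ki40 :: ki39 :: ki38 :: LI1
noncomputable def LE2 : List Nat := ke56 :: ke55 :: ke54 :: ke53 :: ke52 :: ke51 :: ke50 :: ke49 :: ke48 :: ke47 :: ke46 :: ke45 :: ke44 :: ke43 :: ke42 :: ke41 :: ke40 :: ke39 :: ke38 :: LE1
noncomputable def LI3 : List Nat := ki75 :: ki74 :: ki73 :: ki72 :: ki71 :: ki70 :: ki69 :: ki68 :: ki67 :: ki66 :: ki65 :: ki64 :: ki63 :: ki62 :: ki61 :: ki60 :: ki59 :: ki58 :: ki57 :: LI2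
noncomputable def LE3 : List Nat := ke75 :: ke74 :: ke73 :: ke72 :: ke71 :: ke70 :: ke69 :: ke68 :: ke67 :: ke66 :: ke65 :: ke64 :: ke63 :: ke62 :: ke61 :: ke60 :: ke59 :: ke58 :: ke57 :: LE2
noncomputable def LI4 : List Nat := ki94 :: ki93 :: ki92 :: ki91 :: ki90 :: ki89 :: ki88 :: ki87 :: ki86 :: ki85 :: ki84 :: ki83 :: ki82 :: ki81 :: ki80 :: ki79 :: ki78 :: ki77 :: ki76 :: LI3
noncomputable def LE4 : List Nat := ke94 :: ke93 :: ke92 :: ke91 :: ke90 :: ke89 :: ke88 :: ke87 :: ke86 :: ke85 :: ke84 :: ke83 :: ke82 :: ke81 :: ke80 :: ke79 :: ke78 :: ke77 :: ke76 :: LE3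
noncomputable def LI5 : List Nat := ki113 :: ki112 :: ki111 :: ki110 :: ki109 :: ki108 :: ki107 :: ki106 :: ki105 :: ki104 :: ki103 :: ki102 :: ki101 :: ki100 :: ki99 :: ki98 :: ki97 :: ki96 :: ki95 :: LI4
noncomputable def LE5 : List Nat := ke113 :: ke112 :: ke111 :: ke110 :: ke109 :: ke108 :: ke107 :: ke106 :: ke105 :: ke104 :: ke103 :: ke102 :: ke101 :: ke100 :: ke99 :: ke98 :: ke97 :: ke96 :: ke95 :: LE4
noncomputable def LI6 : List Nat := ki132 :: ki131 :: ki130 :: ki129 :: ki128 :: ki127 :: ki126 :: ki125 :: ki124 :: ki123 :: ki122 :: ki121 :: ki120 :: ki119 :: ki118 :: ki117 :: ki116 :: ki115 :: ki114 :: LI5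
noncomputable def LE6 : List Nat := ke132 :: ke131 :: ke130 :: ke129 :: ke128 :: ke127 :: ke126 :: ke125 :: ke124 :: ke123 :: ke122 :: ke121 :: ke120 :: ke119 :: ke118 :: ke117 :: ke116 :: ke115 :: ke114 :: LE5
noncomputable def LI7 : List Nat := ki151 :: ki150 :: ki149 :: ki148 :: ki147 :: ki146 :: ki145 :: ki144 :: ki143 :: ki142 :: ki141 :: ki140 :: ki139 :: ki138 :: ki137 :: ki136 :: ki135 :: ki134 :: ki133 :: LI6
noncomputable def LE7 : List Nat := ke151 :: ke150 :: ke149 :: ke148 :: ke147 :: ke146 :: ke145 :: ke144 :: ke143 :: ke142 :: ke141 :: ke140 :: ke139 :: ke138 :: ke137 :: ke136 :: ke135 :: ke134 :: ke133 :: LE6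
noncomputable def LI8 : List Nat := ki170 :: ki169 :: ki168 :: ki167 :: ki166 :: ki165 :: ki164 :: ki163 :: ki162 :: ki161 :: ki160 :: ki159 :: ki158 :: ki157 :: ki156 :: ki155 :: ki154 :: ki153 :: ki152 :: LI7
noncomputable def LE8 : List Nat := ke170 :: ke169 :: ke168 :: ke167 :: ke166 :: ke165 :: ke164 :: ke163 :: ke162 :: ke161 :: ke160 :: ke159 :: ke158 :: ke157 :: ke156 :: ke155 :: ke154 :: ke153 :: ke152 :: LE7
noncomputable def LI9 : List Nat := ki189 :: ki188 :: ki187 :: ki186 :: ki185 :: ki184 :: ki183 :: ki182 :: ki181 :: ki180 :: ki179 :: ki178 :: ki177 :: ki176 :: ki175 :: ki174 :: ki173 :: ki172 :: ki171 :: LI8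
noncomputable def LE9 : List Nat := ke189 :: ke188 :: ke187 :: ke186 :: ke185 :: ke184 :: ke183 :: ke182 :: ke181 :: ke180 :: ke179 :: ke178 :: ke177 :: ke176 :: ke175 :: ke174 :: ke173 :: ke172 :: ke171 :: LE8
noncomputable def LI10 : List Nat := ki208 :: ki207 :: ki206 :: ki205 :: ki204 :: ki203 :: ki202 :: ki201 :: ki200 :: ki199 :: ki198 :: ki197 :: ki196 :: ki195 :: ki194 :: ki193 :: ki192 :: ki191 :: ki190 :: LI9
noncomputable def LE10 : List Nat := ke208 :: ke207 :: ke206 :: ke205 :: ke204 :: ke203 :: ke202 :: ke201 :: ke200 :: ke199 :: ke198 :: ke197 :: ke196 :: ke195 :: ke194 :: ke193 :: ke192 :: ke191 :: ke190 :: LE9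
noncomputable def LI11 : List Nat := ki227 :: ki226 :: ki225 :: ki224 :: ki223 :: ki222 :: ki221 :: ki220 :: ki219 :: ki218 :: ki217 :: ki216 :: ki215 :: ki214 :: ki213 :: ki212 :: ki211 :: ki210 :: ki209 :: LI10
noncomputable def LE11 : List Nat := ke227 :: ke226 :: ke225 :: ke224 :: ke223 :: ke222 :: ke221 :: ke220 :: ke219 :: ke218 :: ke217 :: ke216 :: ke215 :: ke214 :: ke213 :: ke212 :: ke211 :: ke210 :: ke209 :: LE10
noncomputable def LI12 : List Nat := ki246 :: ki245 :: ki244 :: ki243 :: ki242 :: ki241 :: ki240 :: ki239 :: ki238 :: ki237 :: ki236 :: ki235 :: ki234 :: ki233 :: ki232 :: ki231 :: ki230 :: ki229 :: ki228 :: LI11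
noncomputable def LE12 : List Nat := ke246 :: ke245 :: ke244 :: ke243 :: ke242 :: ke241 :: ke240 :: ke239 :: ke238 :: ke237 :: ke236 :: ke235 :: ke234 :: ke233 :: ke232 :: ke231 :: ke230 :: ke229 :: ke228 :: LE11
noncomputable def LI13 : List Nat := ki265 :: ki264 :: ki263 :: ki262 :: ki261 :: ki260 :: ki259 :: ki258 :: ki257 :: ki256 :: ki255 :: ki254 :: ki253 :: ki252 :: ki251 :: ki250 :: ki249 :: ki248 :: ki247 :: LI12
noncomputable def LE13 : List Nat := ke265 :: ke264 :: ke263 :: ke262 :: ke261 :: ke260 :: ke259 :: ke258 :: ke257 :: ke256 :: ke255 :: ke254 :: ke253 :: ke252 :: ke251 :: ke250 :: ke249 :: ke248 :: ke247 :: LE12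
noncomputable def LI14 : List Nat := ki284 :: ki283 :: ki282 :: ki281 :: ki280 :: ki279 :: ki278 :: ki277 :: ki276 :: ki275 :: ki274 :: ki273 :: ki272 :: ki271 :: ki270 :: ki269 :: ki268 :: ki267 :: ki266 :: LI13
noncomputable def LE14 : List Nat := ke284 :: ke283 :: ke282 :: ke281 :: ke280 :: ke279 :: ke278 :: ke277 :: ke276 :: ke275 :: ke274 :: ke273 :: ke272 :: ke271 :: ke270 :: ke269 :: ke268 :: ke267 :: ke266 :: LE13
noncomputable def LI15 : List Nat := ki303 :: ki302 :: ki301 :: ki300 :: ki299 :: ki298 :: ki297 :: ki296 :: ki295 :: ki294 :: ki293 :: ki292 :: ki291 :: ki290 :: ki289 :: ki288 :: ki287 :: ki286 :: ki285 :: LI14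
noncomputable def LE15 : List Nat := ke303 :: ke302 :: ke301 :: ke300 :: ke299 :: ke298 :: ke297 :: ke296 :: ke295 :: ke294 :: ke293 :: ke292 :: ke291 :: ke290 :: ke289 :: ke288 :: ke287 :: ke286 :: ke285 :: LE14
noncomputable def LI16 : List Nat := ki322 :: ki321 :: ki320 :: ki319 :: ki318 :: ki317 :: ki316 :: ki315 :: ki314 :: ki313 :: ki312 :: ki311 :: ki310 :: ki309 :: ki308 :: ki307 :: ki306 :: ki305 :: ki304 :: LI15
noncomputable def LE16 : List Nat := ke322 :: ke321 :: ke320 :: ke319 :: ke318 :: ke317 :: ke316 :: ke315 :: ke314 :: ke313 :: ke312 :: ke311 :: ke310 :: ke309 :: ke308 :: ke307 :: ke306 :: ke305 :: ke304 :: LE15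
noncomputable def LI17 : List Nat := ki341 :: ki340 :: ki339 :: ki338 :: ki337 :: ki336 :: ki335 :: ki334 :: ki333 :: ki332 :: ki331 :: ki330 :: ki329 :: ki328 :: ki327 :: ki326 :: ki325 :: ki324 :: ki323 :: LI16
noncomputable def LE17 : List Nat := ke341 :: ke340 :: ke339 :: ke338 :: ke337 :: ke336 :: ke335 :: ke334 :: ke333 :: ke332 :: ke331 :: ke330 :: ke329 :: ke328 :: ke327 :: ke326 :: ke325 :: ke324 :: ke323 :: LE16
noncomputable def LI18 : List Nat := ki360 :: ki359 :: ki358 :: ki357 :: ki356 :: ki355 :: ki354 :: ki353 :: ki352 :: ki351 :: ki350 :: ki349 :: ki348 :: ki347 :: ki346 :: ki345 :: ki344 :: ki343 :: ki342 :: LI17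
noncomputable def LE18 : List Nat := ke360 :: ke359 :: ke358 :: ke357 :: ke356 :: ke355 :: ke354 :: ke353 :: ke352 :: ke351 :: ke350 :: ke349 :: ke348 :: ke347 :: ke346 :: ke345 :: ke344 :: ke343 :: ke342 :: LE17
noncomputable def LI19 : List Nat := ki379 :: ki378 :: ki377 :: ki376 :: ki375 :: ki374 :: ki373 :: ki372 :: ki371 :: ki370 :: ki369 :: ki368 :: ki367 :: ki366 :: ki365 :: ki364 :: ki363 :: ki362 :: ki361 :: LI18
noncomputable def LE19 : List Nat := ke379 :: ke378 :: ke377 :: ke376 :: ke375 :: ke374 :: ke373 :: ke372 :: ke371 :: ke370 :: ke369 :: ke368 :: ke367 :: ke366 :: ke365 :: ke364 :: ke363 :: ke362 :: ke361 :: LE18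

end Pool.Agent.MP_f14165_co
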